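import Pool.Agent.H312.MsMp2

/-!
# A set with more sums than differences and more products than ratios

Let `T = {0,2,3,4,7,11,12,14}` (26 sums, 25 differences) and let `S` be the set of the numbers with
18 digits in base 29, all in `T`; it has `26^18` sums and `25^18` differences, and
`26^18 > 2 * 25^18`. Let `X` be the set of the primes in an interval `(16, y]` and
`W = {x * 2^s : x ∈ X, s ∈ S}`. Then `W` has at least `|X|^2 26^18 / 2` products and at most
`|X|^2 25^18` ratios. Let `F ⊆ [1, N + 1]` be a set with the MSTD fringes of Martin and O'Bryant at
both ends which has only `O(√N)` elements and represents all sums in `[2, 2N + 2]` except `3`. For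
`y` about `N / max 2^s` the set `W` lies between the fringes, so `F ∪ W` has more sums than
differences, and as `F` is much smaller than `X` (Chebyshev), it has more products than ratios.
-/

namespace Pool.Agent.Results.MP_9356de_co.MstdAndMptr

open Finset

/-- `A + A` -/
def sums (A : Finset ℕ) : Finset ℕ := image₂ (fun a b : ℕ => a + b) A A

/-- `A - A`, a set of integers -/
def differences (A : Finset ℕ) : Finset ℤ := image₂ (fun a b : ℕ => (a : ℤ) - b) A A

/-- `A · A` -/
def products (A : Finset ℕ) : Finset ℕ := image₂ (fun a b : ℕ => a * b) A A

/-- `A / A`, a set of rational numbers -/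
def ratios (A : Finset ℕ) : Finset ℚ := image₂ (fun a b : ℕ => (a : ℚ) / b) A A

/-- There is a finite nonempty set of positive integers which has more sums than differences and
more products than ratios. -/
theorem result : ∃ A : Finset ℕ, A.Nonempty ∧ (∀ a ∈ A, 1 ≤ a) ∧
    (differences A).card < (sums A).card ∧ (ratios A).card < (products A).card :=
  Pool.Agent.H312.MsMp.main

end Pool.Agent.Results.MP_9356de_co.MstdAndMptr
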